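import Pool.Agent.Helper70.ML.St

set_option autoImplicit false

namespace Pool.Agent.Helper28.ML

open Pool.Agent.Helper70.ML Pool.Agent.Helper75.MX

section

variable {X : Type} [Fintype X] [DecidableEq X]

/-- an even permutation with the same effect -/
private def ev_PTS (s t : X) (hst : s ≠ t) (π : Equiv.Perm X) : alternatingGroup X :=
  if h : Equiv.Perm.sign π = 1 then ⟨π, Equiv.Perm.mem_alternatingGroup.2 h⟩
  else ⟨π * Equiv.swap s t, by
    rw [Equiv.Perm.mem_alternatingGroup, Equiv.Perm.sign_mul, Equiv.Perm.sign_swap hst]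
    rcases Int.units_eq_one_or (Equiv.Perm.sign π) with h1 | h1
    · exact absurd h1 h
    · rw [h1]
      rfl⟩

private theorem inv_fix_PTS {π : Equiv.Perm X} {x : X} (h : π x = x) : π⁻¹ x = x := by
  conv_lhs => rw [← h]
  exact π.symm_apply_apply x

private theorem ev_inv_PTS (s t : X) (hst : s ≠ t) (π : Equiv.Perm X) (x : X) :
    (ev_PTS s t hst π)⁻¹ • x = π⁻¹ x ∨ (ev_PTS s t hst π)⁻¹ • x = Equiv.swap s t (π⁻¹ x) := by
  unfold ev_PTS
  split_ifs with h
  · left
    rfl
  · right
    show (π * Equiv.swap s t)⁻¹ x = _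
    rw [mul_inv_rev, Equiv.swap_inv]
    rfl

private theorem ev_mu_PTS (s t : X) (hst : s ≠ t) (π : Equiv.Perm X) (μ : X → ℝ) (h : μ s = μ t)
    (x : X) : μ ((ev_PTS s t hst π)⁻¹ • x) = μ (π⁻¹ x) := by
  rcases ev_inv_PTS s t hst π x with h1 | h1
  · rw [h1]
  · rw [h1]
    by_cases h2 : π⁻¹ x = s
    · rw [h2, Equiv.swap_apply_left, h]
    · by_cases h3 : π⁻¹ x = t
      · rw [h3, Equiv.swap_apply_right, h]
      · rw [Equiv.swap_apply_of_ne_of_ne h2 h3]

private theorem even_PTS (s t : X) (hst : s ≠ t) (l : List (Equiv.Perm X × ℝ))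
    (hs : ∀ e ∈ l, e.1 s = s) (ht : ∀ e ∈ l, e.1 t = t) (μ : X → ℝ) (h : μ s = μ t) :
    apX (l.map fun e => (ev_PTS s t hst e.1, e.2)) μ = apX l μ ∧ apX l μ s = apX l μ t := by
  induction l with
  | nil => exact ⟨rfl, h⟩
  | cons e l ih =>
    obtain ⟨h1, h2⟩ := ih (fun e he => hs e (List.mem_cons_of_mem _ he))
      (fun e he => ht e (List.mem_cons_of_mem _ he))
    have hs1 : e.1⁻¹ s = s := inv_fix_PTS (hs e List.mem_cons_self)
    have ht1 : e.1⁻¹ t = t := inv_fix_PTS (ht e List.mem_cons_self)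
    constructor
    · show lzX (ev_PTS s t hst e.1) e.2 (apX (l.map fun e => (ev_PTS s t hst e.1, e.2)) μ) =
        lzX e.1 e.2 (apX l μ)
      rw [h1]
      funext x
      unfold lzX
      rw [ev_mu_PTS s t hst e.1 _ h2 x]
      rfl
    · show lzX e.1 e.2 (apX l μ) s = lzX e.1 e.2 (apX l μ) t
      unfold lzX
      have e1 : e.1⁻¹ • s = s := hs1
      have e2 : e.1⁻¹ • t = t := ht1
      rw [e1, e2, h2]

private theorem lin_PTS (l : List (Equiv.Perm X × ℝ)) (c : ℝ) (f ν : X → ℝ)
    (hν : ∀ e ∈ l, ∀ x, ν (e.1⁻¹ x) = ν x) :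
    apX l (fun x => c * f x + ν x) = fun x => c * apX l f x + ν x := by
  induction l with
  | nil => rfl
  | cons e l ih =>
    have h1 := ih (fun e he => hν e (List.mem_cons_of_mem _ he))
    show lzX e.1 e.2 (apX l (fun x => c * f x + ν x)) = fun x => c * lzX e.1 e.2 (apX l f) x + ν x
    rw [h1]
    funext x
    unfold lzX
    have h2 : ν (e.1⁻¹ • x) = ν x := hν e List.mem_cons_self x
    simp only [h2]
    ring

/-- an even permutation which exchanges two sets -/
private theorem exch_PTS (A B : Finset X) (hAB : Disjoint A B) (hc : A.card = B.card) (s t : X)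
    (hs : s ∈ B) (ht : t ∈ B) (hst : s ≠ t) :
    ∃ π : alternatingGroup X, ∀ x, (x ∈ A → π⁻¹ • x ∈ B) ∧ (x ∈ B → π⁻¹ • x ∈ A) ∧
      (x ∉ A → x ∉ B → π⁻¹ • x ∉ A ∧ π⁻¹ • x ∉ B) := by
  have e : {x // x ∈ A} ≃ {x // x ∈ B} := Finset.equivOfCardEq hc
  have hd : ∀ x, x ∈ A → x ∉ B := fun x hA hB => Finset.disjoint_left.1 hAB hA hB
  set f : X → X := fun x => if h : x ∈ A then (e ⟨x, h⟩ : X) else
    if h : x ∈ B then (e.symm ⟨x, h⟩ : X) else x with hf
  have fA : ∀ x (h : x ∈ A), f x = e ⟨x, h⟩ := fun x h => by simp only [hf, dif_pos h]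
  have fB : ∀ x (h : x ∈ B), f x = e.symm ⟨x, h⟩ := fun x h => by
    have : x ∉ A := fun hA => hd x hA h
    simp only [hf, dif_neg this, dif_pos h]
  have fC : ∀ x, x ∉ A → x ∉ B → f x = x := fun x h h' => by
    simp only [hf, dif_neg h, dif_neg h']
  have hinv : Function.Involutive f := by
    intro x
    by_cases h : x ∈ A
    · rw [fA x h, fB _ (e ⟨x, h⟩).2]
      simp
    · by_cases h' : x ∈ B
      · rw [fB x h', fA _ (e.symm ⟨x, h'⟩).2]
        simp
      · rw [fC x h h', fC x h h']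
  set σ : Equiv.Perm X := hinv.toPerm f with hσ
  have hσi : ∀ x, σ⁻¹ x = f x := fun x => rfl
  refine ⟨ev_PTS s t hst σ, fun x => ?_⟩
  have hsw : ∀ y, (y ∈ A ↔ Equiv.swap s t y ∈ A) ∧ (y ∈ B ↔ Equiv.swap s t y ∈ B) := by
    intro y
    by_cases h2 : y = s
    · subst h2
      rw [Equiv.swap_apply_left]
      exact ⟨⟨fun h => absurd hs (hd _ h), fun h => absurd ht (hd _ h)⟩, ⟨fun _ => ht, fun _ => hs⟩⟩
    · by_cases h3 : y = t
      · subst h3
        rw [Equiv.swap_apply_right]
        exact ⟨⟨fun h => absurd ht (hd _ h), fun h => absurd hs (hd _ h)⟩,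
          ⟨fun _ => hs, fun _ => ht⟩⟩
      · rw [Equiv.swap_apply_of_ne_of_ne h2 h3]
        exact ⟨Iff.rfl, Iff.rfl⟩
  have hmem : ((ev_PTS s t hst σ)⁻¹ • x ∈ A ↔ f x ∈ A) ∧ ((ev_PTS s t hst σ)⁻¹ • x ∈ B ↔ f x ∈ B) := by
    rcases ev_inv_PTS s t hst σ x with h1 | h1
    · rw [h1, hσi]
      exact ⟨Iff.rfl, Iff.rfl⟩
    · rw [h1, hσi]
      exact ⟨(hsw (f x)).1.symm, (hsw (f x)).2.symm⟩
  refine ⟨fun h => ?_, fun h => ?_, fun h h' => ?_⟩
  · rw [hmem.2, fA x h]
    exact (e ⟨x, h⟩).2
  · rw [hmem.1, fB x h]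
    exact (e.symm ⟨x, h⟩).2
  · rw [hmem.1, hmem.2, fC x h h']
    exact ⟨h, h'⟩

private theorem main_PTS (hPT0 : StPT0) (A B : Finset X) (a : X) (ha : a ∈ A) (hAB : Disjoint A B)
    (hc : A.card = B.card) (s t : X) (hs : s ∈ B) (ht : t ∈ B) (hst : s ≠ t) (r : ℝ) (μ : X → ℝ)
    (hμ : ∀ x, μ x = r * A.card * (if x = a then 1 else 0) + if x ∈ A ∨ x ∈ B then 0 else r / 2) :
    ∃ l : List (alternatingGroup X × ℝ), l.length ≤ 2 * Nat.log 2 A.card + 1 ∧ Ok l ∧
      apX l μ = fun _ => r / 2 := by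
  obtain ⟨l, hl, hok, hfix, hap⟩ := hPT0 X A a ha
  have hd : ∀ x, x ∈ A → x ∉ B := fun x hA hB => Finset.disjoint_left.1 hAB hA hB
  have hsA : s ∉ A := fun h => hd s h hs
  have htA : t ∉ A := fun h => hd t h ht
  obtain ⟨π, hπ⟩ := exch_PTS A B hAB hc s t hs ht hst
  have hA0 : (A.card : ℝ) ≠ 0 := by
    have := Finset.card_pos.2 ⟨a, ha⟩
    exact_mod_cast this.ne'
  have hμs : μ s = μ t := by
    have e1 : ¬ s = a := fun h => hsA (by rw [h]; exact ha)
    have e2 : ¬ t = a := fun h => htA (by rw [h]; exact ha)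
    rw [hμ s, hμ t, if_neg e1, if_neg e2, if_pos (Or.inr hs), if_pos (Or.inr ht)]
  have hμ' : μ = fun x => r * A.card * (if x = a then 1 else 0) +
      (fun x => if x ∈ A ∨ x ∈ B then 0 else r / 2) x := funext hμ
  have h1 : apX l μ = fun x => r * A.card * (if x ∈ A then 1 / (A.card : ℝ) else 0) +
      if x ∈ A ∨ x ∈ B then 0 else r / 2 := by
    rw [hμ', lin_PTS l (r * A.card) (fun x => if x = a then (1 : ℝ) else 0)
      (fun x => if x ∈ A ∨ x ∈ B then 0 else r / 2), hap]
    intro e he x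
    have h2 := hfix e he
    by_cases hx : x ∈ A
    · have h3 : e.1⁻¹ x ∈ A := by
        by_contra h4
        have h5 := h2 _ h4
        have h6 : e.1 (e.1⁻¹ x) = x := e.1.apply_symm_apply x
        rw [h6] at h5
        rw [← h5] at h4
        exact h4 hx
      rw [if_pos (Or.inl hx), if_pos (Or.inl h3)]
    · rw [inv_fix_PTS (h2 x hx)]
  obtain ⟨h2, -⟩ := even_PTS s t hst l (fun e he => hfix e he s hsA) (fun e he => hfix e he t htA)
    μ hμs
  refine ⟨(π, 1 / 2) :: l.map fun e => (ev_PTS s t hst e.1, e.2), ?_, ?_, ?_⟩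
  · rw [List.length_cons, List.length_map]
    omega
  · intro e he
    rcases List.mem_cons.1 he with rfl | he
    · norm_num
    · obtain ⟨e', he', rfl⟩ := List.mem_map.1 he
      exact hok e' he'
  · show lzX π (1 / 2) (apX (l.map fun e => (ev_PTS s t hst e.1, e.2)) μ) = _
    rw [h2, h1]
    funext x
    unfold lzX
    obtain ⟨p1, p2, p3⟩ := hπ x
    by_cases hA : x ∈ A
    · have q1 := p1 hA
      have q2 : π⁻¹ • x ∉ A := fun h => hd _ h q1
      simp only [hA, q1, q2, true_or, or_true, if_true, if_false]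
      field_simp
      ring
    · by_cases hB : x ∈ B
      · have q1 := p2 hB
        simp only [hA, hB, q1, true_or, or_true, if_true, if_false]
        field_simp
        ring
      · obtain ⟨q1, q2⟩ := p3 hA hB
        simp only [hA, hB, q1, q2, or_self, if_false]
        ring

end

theorem hPTS (hPT0 : StPT0) : StPTS := by
  intro m hm a
  rcases Nat.even_or_odd' m with ⟨k, hk | hk⟩
  · -- even
    have hk3 : 3 ≤ k := by omega
    obtain ⟨A, hA, hAc⟩ : ∃ A : Finset (Fin m), a ∈ A ∧ A.card = k := by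
      obtain ⟨A, h1, -, h2⟩ := Finset.exists_subsuperset_card_eq (s := {a})
        (t := (Finset.univ : Finset (Fin m))) (n := k) (Finset.subset_univ _)
        (by rw [Finset.card_singleton]; omega) (by rw [Finset.card_univ, Fintype.card_fin]; omega)
      exact ⟨A, h1 (Finset.mem_singleton_self a), h2⟩
    have hBc : Aᶜ.card = k := by
      rw [Finset.card_compl, Fintype.card_fin, hAc]
      omega
    obtain ⟨s, hs, t, ht, hst⟩ := Finset.one_lt_card.1 (show 1 < Aᶜ.card by omega)
    have hk0 : (k : ℝ) ≠ 0 := by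
      have : k ≠ 0 := by omega
      exact_mod_cast this
    obtain ⟨l, hl, hok, hap⟩ := main_PTS hPT0 A Aᶜ a hA disjoint_compl_right (hAc.trans hBc.symm)
      s t hs ht hst (1 / k) (fun x : Fin m => if x = a then (1 : ℝ) else 0) (by
        intro x
        have h1 : x ∈ A ∨ x ∈ Aᶜ := by
          rw [Finset.mem_compl]
          exact em _
        rw [if_pos h1, hAc]
        field_simp
        simp)
    refine ⟨l, ?_, hok, ?_⟩
    · rw [hAc] at hl
      have h2 : Nat.log 2 m = Nat.log 2 k + 1 := by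
        rw [hk, Nat.mul_comm, Nat.log_mul_base (by norm_num) (by omega)]
      omega
    · rw [hap]
      funext _
      rw [hk]
      push_cast
      field_simp
  · -- odd
    have hk3 : 3 ≤ k := by omega
    obtain ⟨A1, hA1, hA1c⟩ : ∃ A : Finset (Fin m), a ∈ A ∧ A.card = k + 1 := by
      obtain ⟨A, h1, -, h2⟩ := Finset.exists_subsuperset_card_eq (s := {a})
        (t := (Finset.univ : Finset (Fin m))) (n := k + 1) (Finset.subset_univ _)
        (by rw [Finset.card_singleton]; omega) (by rw [Finset.card_univ, Fintype.card_fin]; omega)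
      exact ⟨A, h1 (Finset.mem_singleton_self a), h2⟩
    obtain ⟨b, hb, hba⟩ : ∃ b ∈ A1, b ≠ a := Finset.exists_mem_ne (by omega) a
    have hAc : (A1.erase b).card = k := by
      rw [Finset.card_erase_of_mem hb, hA1c]
      rfl
    have hBc : A1ᶜ.card = k := by
      rw [Finset.card_compl, Fintype.card_fin, hA1c]
      omega
    have haA : a ∈ A1.erase b := Finset.mem_erase.2 ⟨hba.symm, hA1⟩
    have hdis : Disjoint (A1.erase b) A1ᶜ :=
      Finset.disjoint_of_subset_left (Finset.erase_subset _ _) disjoint_compl_right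
    obtain ⟨s, hs, t, ht, hst⟩ := Finset.one_lt_card.1 (show 1 < A1ᶜ.card by omega)
    have hk0 : (k : ℝ) ≠ 0 := by
      have : k ≠ 0 := by omega
      exact_mod_cast this
    have hm0 : (2 * (k : ℝ) + 1) ≠ 0 := by positivity
    -- the three cycle
    have hsa : s ≠ a := fun h => by
      rw [h, Finset.mem_compl] at hs
      exact hs hA1
    have hsb : s ≠ b := fun h => by
      rw [h, Finset.mem_compl] at hs
      exact hs hb
    set c : alternatingGroup (Fin m) := ⟨Equiv.swap a b * Equiv.swap a s, by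
      rw [Equiv.Perm.mem_alternatingGroup, Equiv.Perm.sign_mul, Equiv.Perm.sign_swap hba.symm,
        Equiv.Perm.sign_swap hsa.symm]
      rfl⟩ with hcdef
    -- `c⁻¹ x = a` iff `x = s`; we use the inverse
    have hcb : ∀ x : Fin m, (c⁻¹)⁻¹ • x = a ↔ x = b := by
      intro x
      rw [inv_inv]
      show Equiv.swap a b (Equiv.swap a s x) = a ↔ x = b
      rw [Equiv.swap_apply_eq_iff, Equiv.swap_apply_left, Equiv.swap_apply_eq_iff,
        Equiv.swap_apply_of_ne_of_ne hba hsb.symm]
    obtain ⟨l, hl, hok, hap⟩ := main_PTS hPT0 (A1.erase b) A1ᶜ a haA hdis (hAc.trans hBc.symm)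
      s t hs ht hst (2 / (2 * k + 1))
      (lzX c⁻¹ (1 / (2 * k + 1)) (fun x : Fin m => if x = a then (1 : ℝ) else 0)) (by
        intro x
        unfold lzX
        simp only [hcb]
        rw [hAc]
        by_cases hxb : x = b
        · subst hxb
          have h1 : ¬ (x ∈ A1.erase x ∨ x ∈ A1ᶜ) := by
            rw [Finset.mem_compl, not_or, not_not]
            exact ⟨Finset.notMem_erase x A1, hb⟩
          rw [if_neg h1, if_neg hba, if_pos rfl]
          field_simp
          ring
        · have h1 : x ∈ A1.erase b ∨ x ∈ A1ᶜ := by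
            rw [Finset.mem_compl, Finset.mem_erase]
            by_cases h2 : x ∈ A1
            · exact Or.inl ⟨hxb, h2⟩
            · exact Or.inr h2
          rw [if_pos h1, if_neg hxb]
          field_simp
          ring)
    refine ⟨l ++ [(c⁻¹, 1 / (2 * (k : ℝ) + 1))], ?_, ?_, ?_⟩
    · rw [List.length_append, List.length_singleton]
      rw [hAc] at hl
      have h2 : Nat.log 2 m = Nat.log 2 k + 1 := by
        rw [hk, Nat.log_of_one_lt_of_le (by norm_num) (by omega)]
        congr 2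
        omega
      omega
    · intro e he
      rcases List.mem_append.1 he with he | he
      · exact hok e he
      · rw [List.mem_singleton] at he
        subst he
        refine ⟨by positivity, ?_⟩
        show (1 : ℝ) / (2 * k + 1) ≤ 1
        rw [div_le_one (by positivity)]
        have : (0 : ℝ) ≤ k := Nat.cast_nonneg k
        linarith
    · have h2 : apX (l ++ [(c⁻¹, 1 / (2 * (k : ℝ) + 1))])
          (fun x : Fin m => if x = a then (1 : ℝ) else 0) =
          apX l (lzX c⁻¹ (1 / (2 * k + 1)) (fun x : Fin m => if x = a then (1 : ℝ) else 0)) := by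
        unfold apX
        rw [List.foldr_append]
        rfl
      rw [h2, hap]
      funext _
      rw [hk]
      push_cast
      field_simp

end Pool.Agent.Helper28.ML
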